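import Mathlib

namespace W3283x15

theorem lev_max (L : ℂ → ℂ) (hL : Continuous L) (hne : ∀ s : ℂ, 3 / 2 < s.re → L s ≠ 0)
    (A : ℝ) (hA : 0 < A) (s1 : ℂ) (h1 : 1 < s1.re) (hs1 : L s1 = 0)
    (hl : 0 ≤ (s1.re - 1) + A * ((s1.re - 1) ^ 2 - s1.im ^ 2) / 2) :
    ∃ s0 : ℂ, 1 < s0.re ∧ L s0 = 0 ∧ 0 ≤ (s0.re - 1) + A * ((s0.re - 1) ^ 2 - s0.im ^ 2) / 2 ∧
      ∀ s : ℂ, 1 < s.re → L s = 0 →
        (s.re - 1) + A * ((s.re - 1) ^ 2 - s.im ^ 2) / 2 ≤
          (s0.re - 1) + A * ((s0.re - 1) ^ 2 - s0.im ^ 2) / 2 := by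
  set lev : ℂ → ℝ := fun s => (s.re - 1) + A * ((s.re - 1) ^ 2 - s.im ^ 2) / 2 with hlev
  have hlevc : Continuous lev := by
    have h1 := Complex.continuous_re
    have h2 := Complex.continuous_im
    simp only [hlev]
    fun_prop
  have hre : ∀ s : ℂ, L s = 0 → s.re ≤ 3 / 2 := fun s hs => by
    by_contra h
    exact hne s (not_le.mp h) hs
  set K : Set ℂ := {s | L s = 0 ∧ 1 ≤ s.re ∧ s.re ≤ 3 / 2 ∧ lev s1 ≤ lev s} with hK
  have hKclosed : IsClosed K := by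
    have e : K = (L ⁻¹' {0}) ∩ ({s | 1 ≤ s.re} ∩ ({s | s.re ≤ 3 / 2} ∩ {s | lev s1 ≤ lev s})) := by
      ext s
      simp [hK]
    rw [e]
    refine (isClosed_singleton.preimage hL).inter ?_
    refine (isClosed_le continuous_const Complex.continuous_re).inter ?_
    refine (isClosed_le Complex.continuous_re continuous_const).inter ?_
    exact isClosed_le continuous_const hlevc
  have hKb : Bornology.IsBounded K := by
    refine (Metric.isBounded_closedBall (x := (0 : ℂ)) (r := 3 / 2 + (1 / A + 1 + 1))).subset ?_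
    intro s hs
    obtain ⟨-, ha, hb, hc⟩ := hs
    rw [mem_closedBall_zero_iff]
    have h0 : 0 ≤ lev s := le_trans hl hc
    have him : s.im ^ 2 ≤ 1 / A + 1 := by
      have e1 : 0 ≤ (s.re - 1) + A * ((s.re - 1) ^ 2 - s.im ^ 2) / 2 := h0
      have e0 : (s.re - 1) ^ 2 ≤ 1 / 4 := by nlinarith
      have e5 : A * (s.re - 1) ^ 2 ≤ A * (1 / 4) := mul_le_mul_of_nonneg_left e0 hA.le
      have e2 : A * s.im ^ 2 ≤ 1 + A := by nlinarith
      have e3 : s.im ^ 2 ≤ (1 + A) / A := by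
        rw [le_div_iff₀ hA]; linarith
      have e4 : (1 + A) / A = 1 / A + 1 := by field_simp
      linarith
    have hpos : 0 < 1 / A := by positivity
    have him' : |s.im| ≤ 1 / A + 1 + 1 := by
      apply abs_le_of_sq_le_sq _ (by positivity)
      nlinarith
    have := Complex.norm_le_abs_re_add_abs_im s
    have hr : |s.re| ≤ 3 / 2 := by rw [abs_of_nonneg (by linarith)]; exact hb
    linarith
  have hKc : IsCompact K := Metric.isCompact_of_isClosed_isBounded hKclosed hKb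
  have hs1K : s1 ∈ K := ⟨hs1, h1.le, hre s1 hs1, le_refl _⟩
  obtain ⟨s0, hs0, hmax⟩ := hKc.exists_isMaxOn ⟨s1, hs1K⟩ hlevc.continuousOn
  have hbig : ∀ s : ℂ, 1 < s.re → L s = 0 → lev s ≤ lev s0 := by
    intro s ha hs
    by_cases hc : lev s1 ≤ lev s
    · exact hmax ⟨hs, ha.le, hre s hs, hc⟩
    · exact (not_le.mp hc).le.trans hs0.2.2.2
  rcases lt_or_eq_of_le hs0.2.1 with h | h
  · exact ⟨s0, h, hs0.1, le_trans hl hs0.2.2.2, hbig⟩
  · refine ⟨s1, h1, hs1, hl, fun s ha hs => ?_⟩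
    have h2 := hbig s ha hs
    have h3 : lev s0 ≤ 0 := by
      simp only [hlev, ← h]
      nlinarith [sq_nonneg s0.im]
    exact h2.trans (h3.trans hl)

end W3283x15
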